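import Pool.Agent.MGP.Stmts

/-!
Row PRB: basic inequalities of the parameters.
-/

set_option autoImplicit false

namespace Pool.Agent.MGP.H21

theorem prb : PrbStmt := by
  rintro N z H E ⟨-, hz1, hz2, hN, -, hH, h5⟩
  have e1 : 500 * H * (E + 70 * z) = 500 * H * E + 35000 * H * z := by ring
  have h6 : 35000 * H * z ≤ N := by omega
  have hd : 500 * H * E ≤ N := by omega
  have h7 : 35000 * H < z + 3 := by
    by_contra hcon
    have h8 : z + 3 ≤ 35000 * H := by omega
    have h9 : (z + 3) * z ≤ 35000 * H * z := Nat.mul_le_mul_right z h8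
    nlinarith
  have ha : 34000 * H ≤ z := by omega
  have hb : 500000 * E ≤ N := by
    have h8 : 1000 * E ≤ H * E := Nat.mul_le_mul_right E hH
    have h9 : 500 * H * E = 500 * (H * E) := by ring
    omega
  refine ⟨ha, hb, ?_, hd⟩
  have h10 : 3 ≤ z := by omega
  nlinarith

end Pool.Agent.MGP.H21
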